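import Mathlib
import Pool.Agent.R441.CN.B

/-! The number field `ℚ(√p)`, `p ≡ 1 (mod 4)` prime: integral basis, discriminant. -/

set_option autoImplicit false

namespace Pool.Agent.R945.RQ

open NumberField Module

section
variable {K : Type*} [Field K] [NumberField K] {p : ℕ} {α : K}

lemma not_rat (hp : p.Prime) (hα : α ^ 2 = (p : K)) (q : ℚ) : (algebraMap ℚ K q) ≠ α := by
  intro h
  rw [← h, ← map_pow] at hα
  have h1 : algebraMap ℚ K (q ^ 2) = algebraMap ℚ K (p : ℚ) := by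
    rw [hα]; simp
  have h2 := (algebraMap ℚ K).injective h1
  have h3 : Irrational (Real.sqrt p) := hp.irrational_sqrt
  apply h3
  refine ⟨|q|, ?_⟩
  have h4 : ((q ^ 2 : ℚ) : ℝ) = p := by rw [h2]; simp
  push_cast at h4 ⊢
  rw [← h4, Real.sqrt_sq_eq_abs]

lemma linInd (hp : p.Prime) (hα : α ^ 2 = (p : K)) : LinearIndependent ℚ ![(1 : K), α] := by
  rw [LinearIndependent.pair_iff]
  intro s t h
  have ht : t = 0 := by
    by_contra ht
    apply not_rat hp hα (-(s / t))
    have h1 : algebraMap ℚ K s + algebraMap ℚ K t * α = 0 := by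
      rw [Algebra.smul_def, Algebra.smul_def, mul_one] at h
      exact h
    have h2 : algebraMap ℚ K t ≠ 0 := by
      simpa using ht
    rw [map_neg, map_div₀]
    field_simp
    linear_combination -h1
  subst ht
  refine ⟨?_, rfl⟩
  simpa using h

noncomputable def bas (h2 : finrank ℚ K = 2) (hp : p.Prime) (hα : α ^ 2 = (p : K)) :
    Basis (Fin 2) ℚ K :=
  basisOfLinearIndependentOfCardEqFinrank (linInd hp hα) (by simp [h2])

lemma bas_zero (h2 : finrank ℚ K = 2) (hp : p.Prime) (hα : α ^ 2 = (p : K)) :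
    bas h2 hp hα 0 = 1 := by simp [bas]

lemma bas_one (h2 : finrank ℚ K = 2) (hp : p.Prime) (hα : α ^ 2 = (p : K)) :
    bas h2 hp hα 1 = α := by simp [bas]

lemma exists_coord (h2 : finrank ℚ K = 2) (hp : p.Prime) (hα : α ^ 2 = (p : K)) (x : K) :
    ∃ a b : ℚ, x = algebraMap ℚ K a + algebraMap ℚ K b * α := by
  have h := (bas h2 hp hα).sum_repr x
  rw [Fin.sum_univ_two, bas_zero, bas_one, Algebra.smul_def, Algebra.smul_def, mul_one] at h
  exact ⟨_, _, h.symm⟩

lemma repr_eq (h2 : finrank ℚ K = 2) (hp : p.Prime) (hα : α ^ 2 = (p : K)) (a b : ℚ) :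
    (bas h2 hp hα).repr (algebraMap ℚ K a + algebraMap ℚ K b * α) = Finsupp.single 0 a +
      Finsupp.single 1 b := by
  have : algebraMap ℚ K a + algebraMap ℚ K b * α = a • bas h2 hp hα 0 + b • bas h2 hp hα 1 := by
    rw [bas_zero, bas_one, Algebra.smul_def, Algebra.smul_def, mul_one]
  rw [this, map_add, map_smul, map_smul, Basis.repr_self, Basis.repr_self]
  simp

lemma mulMat (h2 : finrank ℚ K = 2) (hp : p.Prime) (hα : α ^ 2 = (p : K)) (a b : ℚ) :
    Algebra.leftMulMatrix (bas h2 hp hα) (algebraMap ℚ K a + algebraMap ℚ K b * α) =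
      !![a, p * b; b, a] := by
  ext i j
  rw [Algebra.leftMulMatrix_eq_repr_mul]
  fin_cases j
  · have e : (algebraMap ℚ K a + algebraMap ℚ K b * α) * bas h2 hp hα 0 =
        algebraMap ℚ K a + algebraMap ℚ K b * α := by rw [bas_zero, mul_one]
    show ((bas h2 hp hα).repr ((algebraMap ℚ K a + algebraMap ℚ K b * α) * bas h2 hp hα 0)) i = _
    rw [e, repr_eq]
    fin_cases i <;> simp
  · have e : (algebraMap ℚ K a + algebraMap ℚ K b * α) * bas h2 hp hα 1 =
        algebraMap ℚ K (p * b) + algebraMap ℚ K a * α := by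
      rw [bas_one]
      have : algebraMap ℚ K (p * b) = (p : K) * algebraMap ℚ K b := by simp
      rw [this, ← hα]
      ring
    show ((bas h2 hp hα).repr ((algebraMap ℚ K a + algebraMap ℚ K b * α) * bas h2 hp hα 1)) i = _
    rw [e, repr_eq]
    fin_cases i <;> simp

lemma trace_eq (h2 : finrank ℚ K = 2) (hp : p.Prime) (hα : α ^ 2 = (p : K)) (a b : ℚ) :
    Algebra.trace ℚ K (algebraMap ℚ K a + algebraMap ℚ K b * α) = 2 * a := by
  rw [Algebra.trace_eq_matrix_trace (bas h2 hp hα), mulMat]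
  simp [Matrix.trace_fin_two]
  ring

lemma norm_eq (h2 : finrank ℚ K = 2) (hp : p.Prime) (hα : α ^ 2 = (p : K)) (a b : ℚ) :
    Algebra.norm ℚ (algebraMap ℚ K a + algebraMap ℚ K b * α) = a ^ 2 - p * b ^ 2 := by
  rw [Algebra.norm_eq_matrix_det (bas h2 hp hα), mulMat]
  simp [Matrix.det_fin_two]
  ring

lemma coords (h2 : finrank ℚ K = 2) (hp : p.Prime) (hα : α ^ 2 = (p : K)) (x : K)
    (hx : IsIntegral ℤ x) : ∃ t u : ℤ, 4 ∣ t ^ 2 - p * u ^ 2 ∧ 2 * x = t + u * α := by
  obtain ⟨a, b, rfl⟩ := exists_coord h2 hp hα x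
  have h1 := Algebra.isIntegral_trace (L := ℚ) (F := K) (R := ℤ) (x := algebraMap ℚ K a + algebraMap ℚ K b * α) hx
  have h3 := Algebra.isIntegral_norm (K := ℚ) (R := ℤ) (L := K) (x := algebraMap ℚ K a + algebraMap ℚ K b * α) hx
  rw [trace_eq h2 hp hα] at h1
  rw [norm_eq h2 hp hα] at h3
  obtain ⟨t, ht⟩ := IsIntegrallyClosed.isIntegral_iff.1 h1
  obtain ⟨n, hn⟩ := IsIntegrallyClosed.isIntegral_iff.1 h3
  have ht' : (t : ℚ) = 2 * a := by simpa using ht
  have hn' : (n : ℚ) = a ^ 2 - p * b ^ 2 := by simpa using hn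
  obtain ⟨u, hu⟩ := Pool.Agent.R441.CN.int_of_sq hp (2 * b) (t ^ 2 - 4 * n) (by push_cast; rw [ht', hn']; ring)
  refine ⟨t, u, ⟨n, ?_⟩, ?_⟩
  · have : ((t ^ 2 - p * u ^ 2 : ℤ) : ℚ) = ((4 * n : ℤ) : ℚ) := by
      push_cast
      rw [ht', hn', ← hu]
      ring
    exact_mod_cast this
  · have e1 : (t : K) = 2 * algebraMap ℚ K a := by
      have : algebraMap ℚ K (t : ℚ) = algebraMap ℚ K (2 * a) := by rw [ht']
      simpa using this
    have e2 : (u : K) = 2 * algebraMap ℚ K b := by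
      have : algebraMap ℚ K (u : ℚ) = algebraMap ℚ K (2 * b) := by rw [hu]
      simpa using this
    rw [e1, e2]
    ring

lemma int_omega (hα : α ^ 2 = (p : K)) (h4 : p % 4 = 1) : IsIntegral ℤ ((1 + α) / 2) := by
  obtain ⟨k, hk⟩ : ∃ k, p = 4 * k + 1 := ⟨p / 4, by omega⟩
  refine ⟨Polynomial.X ^ 2 - Polynomial.X - Polynomial.C (k : ℤ), ?_, ?_⟩
  · monicity!
  · have h5 : ((p : K)) = 4 * k + 1 := by exact_mod_cast congrArg (Nat.cast : ℕ → K) hk
    simp only [Polynomial.eval₂_sub, Polynomial.eval₂_pow,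
      Polynomial.eval₂_X, Polynomial.eval₂_C]
    have e : (algebraMap ℤ K) (k : ℤ) = (k : K) := by simp
    rw [e]
    field_simp
    linear_combination hα + h5

lemma linInd_int (hp : p.Prime) (hα : α ^ 2 = (p : K)) (θ : 𝓞 K) (s t : ℚ) (ht : t ≠ 0)
    (hθ : (θ : K) = algebraMap ℚ K s + algebraMap ℚ K t * α) :
    LinearIndependent ℤ ![(1 : 𝓞 K), θ] := by
  rw [LinearIndependent.pair_iff]
  intro m n h
  have h1 : (m : K) + n * (θ : K) = 0 := by
    have h2 := congrArg (algebraMap (𝓞 K) K) h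
    rw [map_add, map_zsmul, map_zsmul, map_one, map_zero] at h2
    simpa using h2
  have hl := linInd hp hα
  rw [LinearIndependent.pair_iff] at hl
  have h3 := hl (m + n * s) (n * t) (by
    rw [Algebra.smul_def, Algebra.smul_def, mul_one, ← h1, hθ]
    simp only [map_add, map_mul, map_intCast]
    ring)
  obtain ⟨h4, h5⟩ := h3
  have h6 : (n : ℚ) = 0 := by
    rcases mul_eq_zero.1 h5 with h | h
    · exact h
    · exact absurd h ht
  rw [h6, zero_mul, add_zero] at h4
  exact ⟨by exact_mod_cast h4, by exact_mod_cast h6⟩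

/-- `p ≡ 1 (mod 4)`: the discriminant is `p`. -/
theorem discr_one (h2 : finrank ℚ K = 2) (hp : p.Prime) (hα : α ^ 2 = (p : K))
    (h4 : p % 4 = 1) : discr K = p := by
  obtain ⟨θ, hθ⟩ : ∃ θ : 𝓞 K, (θ : K) = (1 + α) / 2 := ⟨⟨_, int_omega hα h4⟩, rfl⟩
  have hθ' : (1 + α) / 2 = algebraMap ℚ K (1 / 2) + algebraMap ℚ K (1 / 2) * α := by
    simp only [map_div₀, map_one, map_ofNat]
    ring
  have key := Pool.Agent.R441.CN.discr_of_gen h2 θ
    (linInd_int hp hα _ (1 / 2) (1 / 2) (by norm_num) (by rw [hθ, hθ'])) (by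
      intro x
      obtain ⟨t, u, hd, hx⟩ := coords h2 hp hα (x : K) x.2
      have hpz : (p : ℤ) % 4 = 1 := by omega
      have ht : (t - u) % 2 = 0 := by
        obtain ⟨c, hc⟩ := hd
        obtain ⟨q, hq⟩ : ∃ q : ℤ, (p : ℤ) = 4 * q + 1 := ⟨(p : ℤ) / 4, by omega⟩
        rw [hq] at hc
        rcases Int.emod_two_eq_zero_or_one t with h | h <;>
          rcases Int.emod_two_eq_zero_or_one u with h' | h'
        · omega
        · exfalso
          obtain ⟨t', rfl⟩ : ∃ t', t = 2 * t' := ⟨t / 2, by omega⟩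
          obtain ⟨u', rfl⟩ : ∃ u', u = 2 * u' + 1 := ⟨u / 2, by omega⟩
          have : 4 * (t' ^ 2 - q * (2 * u' + 1) ^ 2 - u' ^ 2 - u' - c) = 1 := by
            linear_combination hc
          omega
        · exfalso
          obtain ⟨t', rfl⟩ : ∃ t', t = 2 * t' + 1 := ⟨t / 2, by omega⟩
          obtain ⟨u', rfl⟩ : ∃ u', u = 2 * u' := ⟨u / 2, by omega⟩
          have : 4 * (t' ^ 2 + t' - 4 * q * u' ^ 2 - u' ^ 2 - c) = -1 := by linear_combination hc
          omega
        · omega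
      obtain ⟨m, hm⟩ : ∃ m, t = 2 * m + u := ⟨(t - u) / 2, by omega⟩
      subst hm
      refine ⟨m, u, ?_⟩
      apply RingOfIntegers.ext
      have e1 : (((m : 𝓞 K) + (u : 𝓞 K) * θ : 𝓞 K) : K) =
          m + u * ((1 + α) / 2) := by
        rw [Pool.Agent.R441.CN.coe_lin, hθ]
      rw [e1]
      have : (2 : K) ≠ 0 := two_ne_zero
      apply mul_left_cancel₀ this
      rw [hx]
      push_cast
      field_simp
      ring)
  rw [hθ] at key
  have e2 : ((1 + α) / 2) ^ 2 = algebraMap ℚ K ((1 + p) / 4) + algebraMap ℚ K (1 / 2) * α := by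
    simp only [map_div₀, map_one, map_ofNat, map_add, map_natCast]
    linear_combination hα / 4
  rw [e2, hθ', trace_eq h2 hp hα, trace_eq h2 hp hα] at key
  have h6 : ((discr K : ℤ) : ℚ) = ((p : ℤ) : ℚ) := by
    rw [key]; push_cast; ring
  exact_mod_cast h6

end

end Pool.Agent.R945.RQ
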