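import Mathlib
import Pool.Agent.R945.RQ.A

/-! The residue of the Dedekind zeta function of `ℚ(√p)`. -/

set_option autoImplicit false

namespace Pool.Agent.R945.RQ

open NumberField Module NumberField.InfinitePlace NumberField.Units

section
variable {K : Type*} [Field K] [NumberField K] {p : ℕ} {α : K}

lemma emb_real (h2 : finrank ℚ K = 2) (hp : p.Prime) (hα : α ^ 2 = (p : K)) (ψ : K →+* ℂ) :
    ComplexEmbedding.IsReal ψ := by
  rw [ComplexEmbedding.isReal_iff]
  have h1 : (ψ α) ^ 2 = p := by rw [← map_pow, hα, map_natCast]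
  have h3 : ψ α = ((Real.sqrt p : ℝ) : ℂ) ∨ ψ α = -((Real.sqrt p : ℝ) : ℂ) := by
    apply sq_eq_sq_iff_eq_or_eq_neg.mp
    rw [h1, ← Complex.ofReal_pow, Real.sq_sqrt (by positivity)]
    simp
  have h4 : (starRingEnd ℂ) (ψ α) = ψ α := by
    rcases h3 with h | h <;> rw [h] <;> simp
  ext x
  obtain ⟨a, b, rfl⟩ := exists_coord h2 hp hα x
  rw [ComplexEmbedding.conjugate_coe_eq, map_add, map_mul, map_add, map_mul, h4]
  simp

open scoped Classical in
lemma nrComplex (h2 : finrank ℚ K = 2) (hp : p.Prime) (hα : α ^ 2 = (p : K)) : nrComplexPlaces K = 0 := by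
  rw [Fintype.card_eq_zero_iff]
  refine ⟨fun ⟨w, hw⟩ => ?_⟩
  rw [isComplex_iff] at hw
  exact hw (emb_real h2 hp hα _)

lemma nrReal (h2 : finrank ℚ K = 2) (hp : p.Prime) (hα : α ^ 2 = (p : K)) :
    nrRealPlaces K = 2 := by
  have h := card_add_two_mul_card_eq_rank K
  rw [nrComplex h2 hp hα, h2] at h
  omega

lemma card_places (h2 : finrank ℚ K = 2) (hp : p.Prime) (hα : α ^ 2 = (p : K)) :
    Fintype.card (InfinitePlace K) = 2 := by
  rw [card_eq_nrRealPlaces_add_nrComplexPlaces, nrReal h2 hp hα, nrComplex h2 hp hα]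

lemma torsion_pm (φ : K →+* ℝ) (x : (𝓞 K)ˣ) (hx : x ∈ torsion K) : x = 1 ∨ x = -1 := by
  rw [torsion, CommGroup.mem_torsion, isOfFinOrder_iff_pow_eq_one] at hx
  obtain ⟨n, hn, h⟩ := hx
  have h1 : (φ ((x : 𝓞 K) : K)) ^ n = 1 := by
    rw [← map_pow]
    have h2 : (((x : 𝓞 K)) : K) ^ n = 1 := by
      have h3 := congrArg (fun y : (𝓞 K)ˣ => ((y : 𝓞 K) : K)) h
      simpa using h3
    rw [h2, map_one]
  have h2 : |φ ((x : 𝓞 K) : K)| = 1 := by
    have h4 : |φ ((x : 𝓞 K) : K)| ^ n = 1 := by rw [← abs_pow, h1, abs_one]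
    exact (pow_eq_one_iff_of_nonneg (abs_nonneg _) hn.ne').mp h4
  rcases (abs_eq zero_le_one).mp h2 with h | h
  · left
    apply Units.ext
    apply RingOfIntegers.ext
    apply φ.injective
    rw [h]; simp
  · right
    apply Units.ext
    apply RingOfIntegers.ext
    apply φ.injective
    rw [h]; simp

lemma tors (φ : K →+* ℝ) : torsionOrder K = 2 := by
  rw [torsionOrder, Nat.card_eq_two_iff]
  refine ⟨1, ⟨-1, ?_⟩, ?_, ?_⟩
  · rw [torsion, CommGroup.mem_torsion, isOfFinOrder_iff_pow_eq_one]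
    exact ⟨2, by norm_num, by simp⟩
  · intro h
    have h3 := congrArg (fun y : torsion K => (((y : (𝓞 K)ˣ) : 𝓞 K) : K)) h
    have h4 : (1 : K) = -1 := by simpa using h3
    have h6 : (2 : K) = 0 := by linear_combination h4
    exact two_ne_zero h6
  · ext x
    simp only [Set.mem_insert_iff, Set.mem_singleton_iff, Set.mem_univ, iff_true]
    rcases torsion_pm φ (x : (𝓞 K)ˣ) x.2 with h | h
    · left; exact Subtype.ext h
    · right; exact Subtype.ext h

/-- `ε` is the fundamental unit `> 1` with respect to the real embedding `φ` -/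
def IsFund (K : Type*) [Field K] [NumberField K] (φ : K →+* ℝ) (ε : ℝ) : Prop :=
  1 < ε ∧ ∀ x : ℝ, (∃ v : (𝓞 K)ˣ, φ ((v : 𝓞 K) : K) = x) ↔ ∃ n : ℤ, x = ε ^ n ∨ x = -ε ^ n

open scoped Classical in
theorem reg_eq (h2 : finrank ℚ K = 2) (hp : p.Prime) (hα : α ^ 2 = (p : K)) (φ : K →+* ℝ) (ε : ℝ)
    (hε : IsFund K φ ε) : regulator K = Real.log ε := by
  have hc := card_places h2 hp hα
  set w₀ : InfinitePlace K := InfinitePlace.mk (Complex.ofRealHom.comp φ) with hw₀
  have hw₀a : ∀ x : K, w₀ x = |φ x| := by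
    intro x
    rw [hw₀, InfinitePlace.apply]
    simp
  obtain ⟨w', hw'⟩ : ∃ w' : InfinitePlace K, w' ≠ w₀ := by
    by_contra hcon
    push Not at hcon
    have : Fintype.card (InfinitePlace K) ≤ 1 := Fintype.card_le_one_iff.mpr (fun a b => by rw [hcon a, hcon b])
    omega
  have huniq : ∀ w : InfinitePlace K, w ≠ w' → w = w₀ := by
    intro w hw
    by_contra h
    have : 3 ≤ Fintype.card (InfinitePlace K) := by
      have h3 : ({w, w', w₀} : Finset (InfinitePlace K)).card = 3 := by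
        rw [Finset.card_eq_three]
        exact ⟨w, w', w₀, hw, h, hw', rfl⟩
      rw [← h3]
      exact Finset.card_le_univ _
    omega
  have hr : rank K = 1 := by rw [rank, hc]
  haveI : Unique {w // w ≠ w'} := ⟨⟨⟨w₀, fun h => hw' h.symm⟩⟩, fun ⟨w, hw⟩ => Subtype.ext (huniq w hw)⟩
  haveI : Unique (Fin (rank K)) := by rw [hr]; infer_instance
  set i₀ : Fin (rank K) := default with hi₀
  set e : {w // w ≠ w'} ≃ Fin (rank K) := Equiv.ofUnique _ _ with he
  rw [regulator_eq_det K w' e, Matrix.det_unique]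
  have hdef : ((default : {w // w ≠ w'}) : InfinitePlace K) = w₀ := huniq _ (default : {w // w ≠ w'}).2
  rw [Matrix.of_apply, hdef, hw₀a]
  have hmult : (w₀.mult : ℝ) = 1 := by
    have : w₀.IsReal := ⟨Complex.ofRealHom.comp φ, by
      rw [ComplexEmbedding.isReal_iff]; ext x; simp, rfl⟩
    rw [InfinitePlace.mult, if_pos this]; simp
  rw [hmult, one_mul]
  set u := fundSystem K (e default) with hu
  -- units are ± powers of u
  have hunits : ∀ x : (𝓞 K)ˣ, ∃ n : ℤ, |φ ((x : 𝓞 K) : K)| = |φ ((u : 𝓞 K) : K)| ^ n := by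
    intro x
    obtain ⟨⟨ζ, f⟩, hx, _⟩ := exist_unique_eq_mul_prod K x
    refine ⟨f (e default), ?_⟩
    have hun : (Finset.univ : Finset (Fin (rank K))) = {e default} := by
      ext i; simp [Unique.eq_default i, Unique.eq_default (e default)]
    simp only [hun, Finset.prod_singleton] at hx
    have h1 : ((x : 𝓞 K) : K) = (((ζ : (𝓞 K)ˣ) : 𝓞 K) : K) * (((u : 𝓞 K) : K)) ^ (f (e default)) := by
      rw [hx, ← hu]
      exact (NumberField.Units.coe_mul (ζ : (𝓞 K)ˣ) (u ^ f (e default))).trans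
        (by rw [NumberField.Units.coe_zpow])
    rw [h1, map_mul, abs_mul, map_zpow₀, abs_zpow]
    rcases torsion_pm φ (ζ : (𝓞 K)ˣ) ζ.2 with h | h <;> rw [h] <;> simp
  obtain ⟨hε1, hε2⟩ := hε
  have hε0 : (0 : ℝ) < ε := by linarith
  obtain ⟨b, hb⟩ := (hε2 _).mp ⟨u, rfl⟩
  have hub : |φ ((u : 𝓞 K) : K)| = ε ^ b := by
    rcases hb with h | h <;> rw [h]
    · rw [abs_of_pos (zpow_pos hε0 b)]
    · rw [abs_neg, abs_of_pos (zpow_pos hε0 b)]
  obtain ⟨v, hv⟩ := (hε2 ε).mpr ⟨1, by simp⟩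
  obtain ⟨a, ha⟩ := hunits v
  rw [hv, abs_of_pos hε0, hub, ← zpow_mul] at ha
  have hab : b * a = 1 := by
    have h1 : ε ^ (1 : ℤ) = ε ^ (b * a) := by rw [zpow_one]; exact ha
    exact ((zpow_right_strictMono₀ hε1).injective h1).symm
  rw [hub, Real.log_zpow, abs_mul, abs_of_pos (Real.log_pos hε1)]
  have hb1 : b = 1 ∨ b = -1 := Int.isUnit_iff.mp (IsUnit.of_mul_eq_one a hab)
  rcases hb1 with h | h <;> rw [h] <;> simp

theorem residue_formula (h2 : finrank ℚ K = 2) (hp : p.Prime) (h1 : p % 4 = 1) (hα : α ^ 2 = (p : K))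
    (φ : K →+* ℝ) (ε : ℝ) (hε : IsFund K φ ε) :
    dedekindZeta_residue K = 2 * classNumber K * Real.log ε / Real.sqrt p := by
  rw [dedekindZeta_residue_def, nrReal h2 hp hα, nrComplex h2 hp hα, reg_eq h2 hp hα φ ε hε,
    tors φ, discr_one h2 hp hα h1]
  have h3 : |((p : ℤ) : ℝ)| = p := by
    rw [Int.cast_natCast]; exact abs_of_nonneg (by positivity)
  rw [h3]
  push_cast
  have h4 : Real.sqrt p ≠ 0 := by
    rw [Real.sqrt_ne_zero']
    exact_mod_cast hp.pos
  field_simp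
  try ring

end

end Pool.Agent.R945.RQ
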