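import Mathlib
import Pool.Agent.R945.RQ.C
import Pool.Agent.R441.CN.G
import Pool.Agent.H268R2.RZ_HT
import Pool.Agent.H916R2.ExpZetaOne

/-! The class number formula of `ℚ(√p)`, `p ≡ 1 (mod 4)`. -/

set_option autoImplicit false

namespace Pool.Agent.R945.RQ

open NumberField Module H300.HW IsCyclotomicExtension.Rat Pool.Agent.Y125.XT DirichletCharacter
open IntermediateField Pool.Agent.R441.CN HurwitzZeta ZMod Pool.Agent.H916R2
open scoped ZMod

section
variable (n : ℕ) [NeZero n] (L : Type) [Field L] [NumberField L] [IsCyclotomicExtension {n} ℚ L]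

open scoped Classical in
theorem residue_L' {p : ℕ} (α : L) (hα : α ^ 2 = (p : L)) (χ : DirichletCharacter ℂ n)
    (hprim : χ.IsPrimitive) (hne : χ ≠ 1)
    (hχ : ∀ σ : Gal(L/ℚ), σ α = α → χ (galEquivZMod n L σ : ZMod n) = 1) :
    finrank ℚ ℚ⟮α⟯ = 2 ∧
      ((dedekindZeta_residue ℚ⟮α⟯ : ℝ) : ℂ) = DirichletCharacter.LFunction χ 1 := by
  have : IsGalois ℚ L := IsCyclotomicExtension.isGalois {n} ℚ L
  have hmem : χ ∈ YY n L ℚ⟮α⟯ := by
    rw [mem_YY]
    intro σ hσ
    apply hχ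
    exact (IntermediateField.mem_fixingSubgroup_iff _ _).1 hσ α (mem_adjoin_simple_self ℚ α)
  have hle : finrank ℚ ℚ⟮α⟯ ≤ 2 := by
    have hint : IsIntegral ℚ α := Algebra.IsIntegral.isIntegral α
    rw [adjoin.finrank hint]
    have hd : minpoly ℚ α ∣ Polynomial.X ^ 2 - Polynomial.C (p : ℚ) := by
      apply minpoly.dvd
      simp [hα]
    have hm : (Polynomial.X ^ 2 - Polynomial.C (p : ℚ)).Monic := by monicity!
    have := Polynomial.natDegree_le_of_dvd hd hm.ne_zero
    have h3 : (Polynomial.X ^ 2 - Polynomial.C (p : ℚ)).natDegree = 2 := by compute_degree!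
    omega
  have hcard : Nat.card (YY n L ℚ⟮α⟯) = finrank ℚ ℚ⟮α⟯ := by
    rw [card_YY, ← IntermediateField.finrank_eq_fixingSubgroup_index]
  have hge : 2 ≤ Nat.card (YY n L ℚ⟮α⟯) := by
    rw [Nat.card_eq_fintype_card]
    have h2 : 1 < Fintype.card (YY n L ℚ⟮α⟯) := by
      rw [Fintype.one_lt_card_iff]
      exact ⟨⟨χ, hmem⟩, 1, fun h => hne (congrArg Subtype.val h)⟩
    exact h2
  have h2 : finrank ℚ ℚ⟮α⟯ = 2 := by omega
  refine ⟨h2, ?_⟩
  rw [residue_eq n L ℚ⟮α⟯]
  have hun : (Finset.univ : Finset (YY n L ℚ⟮α⟯)).erase 1 = {⟨χ, hmem⟩} := by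
    symm
    apply Finset.eq_of_subset_of_card_le
    · intro x hx
      rw [Finset.mem_singleton] at hx
      rw [hx, Finset.mem_erase]
      exact ⟨fun h => hne (congrArg Subtype.val h), Finset.mem_univ _⟩
    · rw [Finset.card_erase_of_mem (Finset.mem_univ _), Finset.card_univ, Finset.card_singleton,
        ← Nat.card_eq_fintype_card, hcard, h2]
  rw [hun, Finset.prod_singleton, Lp_prim n χ hprim]

/-- the class number of a quadratic field containing `√p`, as an `L`-value -/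
theorem classNumber_L' {p : ℕ} (hp : p.Prime) (h1 : p % 4 = 1) (α : L) (hα : α ^ 2 = (p : L))
    (χ : DirichletCharacter ℂ n) (hprim : χ.IsPrimitive) (hne : χ ≠ 1)
    (hχ : ∀ σ : Gal(L/ℚ), σ α = α → χ (galEquivZMod n L σ : ZMod n) = 1)
    (K : Type) [Field K] [NumberField K] (h2 : finrank ℚ K = 2) (β : K) (hβ : β ^ 2 = (p : K))
    (φ : K →+* ℝ) (ε : ℝ) (hε : IsFund K φ ε) :
    ((2 * classNumber K * Real.log ε / Real.sqrt p : ℝ) : ℂ) = DirichletCharacter.LFunction χ 1 := by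
  obtain ⟨h3, h4⟩ := residue_L' n L α hα χ hprim hne hχ
  set γ : ℚ⟮α⟯ := ⟨α, mem_adjoin_simple_self ℚ α⟩ with hγ
  have hγ2 : γ ^ 2 = (p : ℚ⟮α⟯) := by
    apply Subtype.ext
    push_cast
    exact hα
  -- isomorphism
  have hbij : ∃ f : K →ₐ[ℚ] ℚ⟮α⟯, Function.Bijective f := by
    set pb : PowerBasis ℚ ℚ⟮α⟯ := IntermediateField.adjoin.powerBasis (Algebra.IsIntegral.isIntegral α)
    have hg : Polynomial.aeval β (minpoly ℚ pb.gen) = 0 := by
      have hgen : pb.gen = γ := by
        rw [adjoin.powerBasis_gen]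
        rfl
      have hmin : minpoly ℚ pb.gen = Polynomial.X ^ 2 - Polynomial.C (p : ℚ) := by
        rw [hgen]
        symm
        apply minpoly.eq_of_irreducible_of_monic
        · have hm : (Polynomial.X ^ 2 - Polynomial.C (p : ℚ)).Monic := by monicity!
          have h3 : (Polynomial.X ^ 2 - Polynomial.C (p : ℚ)).natDegree = 2 := by compute_degree!
          rw [Polynomial.irreducible_iff_roots_eq_zero_of_degree_le_three (by omega) (by omega)]
          rw [Multiset.eq_zero_iff_forall_notMem]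
          intro q hq
          rw [Polynomial.mem_roots hm.ne_zero, Polynomial.IsRoot.def] at hq
          simp at hq
          have h5 : Irrational (Real.sqrt p) := hp.irrational_sqrt
          apply h5
          refine ⟨|q|, ?_⟩
          have h6 : ((q ^ 2 : ℚ) : ℝ) = p := by
            have : q ^ 2 = (p : ℚ) := by linear_combination hq
            rw [this]; simp
          push_cast at h6 ⊢
          rw [← h6, Real.sqrt_sq_eq_abs]
        · simp [hγ2]
        · monicity!
      rw [hmin]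
      simp [hβ]
    have hf := pb.lift β hg
    have hinj : Function.Injective hf := hf.toRingHom.injective
    have hsur : Function.Surjective hf := by
      have := LinearMap.injective_iff_surjective_of_finrank_eq_finrank (f := hf.toLinearMap) (by rw [h2, h3])
      exact this.1 hinj
    let e := AlgEquiv.ofBijective hf ⟨hinj, hsur⟩
    exact ⟨e.symm.toAlgHom, e.symm.bijective⟩
  obtain ⟨f, hf⟩ := hbij
  let e : K ≃ₐ[ℚ] ℚ⟮α⟯ := AlgEquiv.ofBijective f hf
  have eR : 𝓞 K ≃+* 𝓞 ℚ⟮α⟯ := RingOfIntegers.mapRingEquiv e.toRingEquiv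
  have hc : classNumber K = classNumber ℚ⟮α⟯ := Fintype.card_congr (ClassGroup.mulEquiv eR).toEquiv
  set φ' : ℚ⟮α⟯ →+* ℝ := φ.comp (e.symm.toRingEquiv : ℚ⟮α⟯ →+* K) with hφ'
  have hε' : IsFund ℚ⟮α⟯ φ' ε := by
    refine ⟨hε.1, fun x => ?_⟩
    rw [← hε.2 x]
    constructor
    · rintro ⟨v, hv⟩
      refine ⟨Units.map ((RingOfIntegers.mapRingEquiv e.symm.toRingEquiv) : 𝓞 ℚ⟮α⟯ →* 𝓞 K) v, ?_⟩
      rw [← hv]
      rfl
    · rintro ⟨v, hv⟩
      refine ⟨Units.map ((RingOfIntegers.mapRingEquiv e.toRingEquiv) : 𝓞 K →* 𝓞 ℚ⟮α⟯) v, ?_⟩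
      rw [← hv]
      show φ (e.symm (e ((v : 𝓞 K) : K))) = _
      rw [AlgEquiv.symm_apply_apply]
  rw [residue_formula h3 hp h1 hγ2 φ' ε hε'] at h4
  rw [← h4, hc]

end

end Pool.Agent.R945.RQ
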