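import Mathlib
import Pool.Agent.R945.RQ.D

/-! The value `L(1,χ)` for the even quadratic character; the class number formula. -/

set_option autoImplicit false

namespace Pool.Agent.R945.RQ

open NumberField Module H300.HW IsCyclotomicExtension.Rat Pool.Agent.Y125.XT DirichletCharacter
open IntermediateField Pool.Agent.R441.CN HurwitzZeta ZMod Pool.Agent.H916R2 Finset
open scoped ZMod

section
variable {p : ℕ} [Fact p.Prime]

lemma qc_prim (hp2 : p ≠ 2) : DirichletCharacter.IsPrimitive (qc p ℂ) := by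
  have hne := qc_ne_one (L := ℂ) hp2
  have h1 := DirichletCharacter.conductor_dvd_level (qc p ℂ)
  rcases (Nat.dvd_prime (Fact.out : p.Prime)).1 h1 with h | h
  · exact absurd ((eq_one_iff_conductor_eq_one).2 h) hne
  · exact h

lemma qc_inv : (qc p ℂ)⁻¹ = qc p ℂ := (qc_quad (L := ℂ)).inv

lemma qc_even (h1 : p % 4 = 1) (a : ZMod p) : qc p ℂ (-a) = qc p ℂ a := by
  have h : qc p ℂ (-1) = 1 := by
    rw [qc_apply, quadraticChar_neg_one (by rw [ZMod.ringChar_zmod_n]; rintro rfl; omega), ZMod.card,
      ZMod.χ₄_nat_one_mod_four h1]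
    simp
  have : -a = (-1) * a := by ring
  rw [this, map_mul, h, one_mul]

lemma gauss_eq (h1 : p % 4 = 1) : gaussSum (qc p ℂ) (stdAddChar (N := p)) = ((Real.sqrt p : ℝ) : ℂ) := by
  have hp : p.Prime := Fact.out
  have hp2 : p ≠ 2 := by rintro rfl; omega
  have hodd : Odd p := hp.odd_of_ne_two hp2
  have hsq : (gaussSum (qc p ℂ) (stdAddChar (N := p))) ^ 2 = (p : ℂ) := by
    have h : (gaussSum (qc p ℂ) (stdAddChar (N := p))) ^ 2 = qc p ℂ (-1) * Fintype.card (ZMod p) :=
      gaussSum_sq (qc_ne_one (L := ℂ) hp2) qc_quad (ZMod.isPrimitive_stdAddChar p)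
    rw [h, ZMod.card]
    have : qc p ℂ (-1) = 1 := by
      have := qc_even h1 (1 : ZMod p)
      rw [this, map_one]
    rw [this, one_mul]
  have hre : (gaussSum (qc p ℂ) (stdAddChar (N := p))).re = Real.sqrt p := by
    have h3 := Pool.Agent.H268R2.RZHT.sum_cos 1 p hodd hp.prime.squarefree h1
    have h4 : Pool.Agent.H306R2.RZ.js 1 p = 1 := by
      unfold Pool.Agent.H306R2.RZ.js
      rw [jacobiSym.one_left]; simp
    rw [h4, one_mul] at h3
    rw [← h3]
    unfold gaussSum
    rw [Complex.re_sum]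
    apply Finset.sum_nbij' (fun x : ZMod p => x.val) (fun i : ℕ => (i : ZMod p))
    · intro x _
      exact mem_range.2 (ZMod.val_lt x)
    · intro i _
      exact mem_univ _
    · intro x _
      exact ZMod.natCast_zmod_val x
    · intro i hi
      exact ZMod.val_natCast_of_lt (mem_range.1 hi)
    · intro x _
      have e1 : qc p ℂ x = ((Pool.Agent.H306R2.RZ.js (x.val : ℤ) p : ℝ) : ℂ) := by
        unfold Pool.Agent.H306R2.RZ.js
        rw [← jacobiSym.legendreSym.to_jacobiSym, qc_apply, legendreSym]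
        push_cast
        rw [ZMod.natCast_zmod_val]
      have e2 : stdAddChar x = Complex.exp (((2 * Real.pi * ((1 : ℤ) : ℝ) * (x.val : ℝ) / (p : ℝ) : ℝ) : ℂ) * Complex.I) := by
        conv_lhs => rw [← ZMod.natCast_zmod_val x]
        have := ZMod.stdAddChar_coe (N := p) (x.val : ℤ)
        rw [Int.cast_natCast] at this
        rw [this]
        congr 1
        push_cast
        ring
      rw [e1, e2, Complex.re_ofReal_mul, Complex.exp_ofReal_mul_I_re]
  set G := gaussSum (qc p ℂ) (stdAddChar (N := p)) with hG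
  have h5 : G = ((Real.sqrt p : ℝ) : ℂ) ∨ G = -((Real.sqrt p : ℝ) : ℂ) := by
    apply sq_eq_sq_iff_eq_or_eq_neg.mp
    rw [hsq, ← Complex.ofReal_pow, Real.sq_sqrt (by positivity)]
    simp
  rcases h5 with h | h
  · exact h
  · exfalso
    rw [h] at hre
    simp only [Complex.neg_re, Complex.ofReal_re] at hre
    have : 0 < Real.sqrt p := Real.sqrt_pos.2 (by exact_mod_cast hp.pos)
    linarith

lemma std_norm (x : ZMod p) : ‖stdAddChar x‖ = 1 := by
  exact AddChar.norm_apply _ _

theorem L_value (h1 : p % 4 = 1) :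
    Real.sqrt p * (DirichletCharacter.LFunction (qc p ℂ) 1).re =
      - ∑ j : ZMod p, ((quadraticChar (ZMod p) j : ℤ) : ℝ) * Real.log ‖1 - stdAddChar j‖ := by
  have hp : p.Prime := Fact.out
  have hp2 : p ≠ 2 := by rintro rfl; omega
  have h0 : qc p ℂ 0 = 0 := by rw [MulChar.map_zero]
  have hLF := ZMod.LFunction_dft (fun j : ZMod p => qc p ℂ j) (s := 1) (Or.inl h0)
  have hdft : (ZMod.dft fun j => qc p ℂ j) = fun k => ((Real.sqrt p : ℝ) : ℂ) * qc p ℂ k := by
    funext k
    have h := (qc_prim (p := p) hp2).fourierTransform_eq_inv_mul_gaussSum k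
    rw [qc_inv, qc_even h1, gauss_eq h1] at h
    rw [h]; ring
  have hlhs : ZMod.LFunction (ZMod.dft fun j : ZMod p => qc p ℂ j) 1 =
      ((Real.sqrt p : ℝ) : ℂ) * DirichletCharacter.LFunction (qc p ℂ) 1 := by
    rw [hdft]
    unfold DirichletCharacter.LFunction ZMod.LFunction
    simp only [mul_sum]
    refine sum_congr rfl fun j _ => ?_
    ring
  rw [hlhs] at hLF
  have h6 := congrArg Complex.re hLF
  rw [Complex.re_ofReal_mul, Complex.re_sum] at h6
  rw [h6, ← Finset.sum_neg_distrib, ← Equiv.sum_comp (Equiv.neg (ZMod p))]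
  refine sum_congr rfl fun j _ => ?_
  simp only [Equiv.neg_apply, neg_neg]
  by_cases hj : j = 0
  · subst hj
    rw [neg_zero, h0]
    simp
  · have e1 : expZeta (toAddCircle j) 1 = - Complex.log (1 - stdAddChar j) := by
      rw [ZMod.toAddCircle_apply]
      apply expZeta_one
      · conv_lhs => rw [← ZMod.natCast_zmod_val j]
        have := ZMod.stdAddChar_coe (N := p) (j.val : ℤ)
        rw [Int.cast_natCast] at this
        rw [this]
        congr 1
        push_cast
        ring
      · intro h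
        exact hj (((ZMod.isPrimitive_stdAddChar p).zmod_char_eq_one_iff p j).mp h)
      · rw [← ZMod.toAddCircle_apply]
        intro h
        exact hj (ZMod.toAddCircle_eq_zero.mp h)
    rw [e1, qc_even h1, qc_apply]
    have e2 : (((quadraticChar (ZMod p) j : ℤ) : ℂ) * -Complex.log (1 - stdAddChar j)).re =
        -(((quadraticChar (ZMod p) j : ℤ) : ℝ) * Real.log ‖1 - stdAddChar j‖) := by
      rw [show ((quadraticChar (ZMod p) j : ℤ) : ℂ) = ((((quadraticChar (ZMod p) j : ℤ)) : ℝ) : ℂ) by push_cast; rfl,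
        Complex.re_ofReal_mul, Complex.neg_re, Complex.log_re]
      ring
    rw [e2]

theorem cnf_aux (L : Type) [Field L] [NumberField L] [IsCyclotomicExtension {p} ℚ L]
    (h1 : p % 4 = 1) (K : Type) [Field K] [NumberField K]
    (h2 : finrank ℚ K = 2) (β : K) (hβ : β ^ 2 = (p : K)) (φ : K →+* ℝ) (ε : ℝ) (hε : IsFund K φ ε) :
    2 * classNumber K * Real.log ε =
      - ∑ j : ZMod p, ((quadraticChar (ZMod p) j : ℤ) : ℝ) * Real.log ‖1 - stdAddChar j‖ := by
  have hp : p.Prime := Fact.out
  have hp2 : p ≠ 2 := by rintro rfl; omega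
  have hη := IsCyclotomicExtension.zeta_spec p ℚ L
  set η := IsCyclotomicExtension.zeta p ℚ L with hηd
  have hsq := gs_sq hp2 hη
  have hm1 : quadraticChar (ZMod p) (-1) = 1 := by
    rw [quadraticChar_neg_one (by rw [ZMod.ringChar_zmod_n]; exact hp2), ZMod.card,
      ZMod.χ₄_nat_one_mod_four h1]
  rw [hm1] at hsq
  have hα : (gs hη) ^ 2 = (p : L) := by rw [hsq]; push_cast; ring
  have hχ : ∀ σ : Gal(L/ℚ), σ (gs hη) = gs hη →
      qc p ℂ (galEquivZMod p L σ : ZMod p) = 1 := by
    intro σ hσ
    set k := (galEquivZMod p L σ).val.val with hk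
    have hkp : ¬ p ∣ k := by
      intro h
      have h1 : ((galEquivZMod p L σ : (ZMod p)ˣ) : ZMod p) = 0 := by
        rw [← ZMod.natCast_zmod_val ((galEquivZMod p L σ : (ZMod p)ˣ) : ZMod p), ← hk]
        exact (ZMod.natCast_eq_zero_iff _ _).2 h
      exact (galEquivZMod p L σ).ne_zero h1
    have h6 : σ η = η ^ k := galEquivZMod_apply_of_pow_eq p L σ hη.pow_eq_one
    have h7 := gs_map hη (σ : L →+* L) k hkp h6
    have h8 : (σ : L →+* L) (gs hη) = gs hη := hσ
    rw [h8] at h7
    have hg0 : gs hη ≠ 0 := by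
      intro h0
      rw [h0] at hα
      have : (p : L) = 0 := by rw [← hα]; ring
      exact hp.ne_zero (by exact_mod_cast this)
    have h9 : ((quadraticChar (ZMod p) (k : ZMod p) : ℤ) : L) = 1 := by
      apply mul_right_cancel₀ hg0
      rw [← h7, one_mul]
    have h10 : quadraticChar (ZMod p) (k : ZMod p) = 1 := by exact_mod_cast h9
    have h11 : ((galEquivZMod p L σ : (ZMod p)ˣ) : ZMod p) = (k : ZMod p) := by
      rw [hk, ZMod.natCast_zmod_val]
    rw [qc_apply, h11, h10]
    simp
  have hL1 := classNumber_L' p L hp h1 (gs hη) hα (qc p ℂ) (qc_prim hp2) (qc_ne_one hp2) hχ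
    K h2 β hβ φ ε hε
  have hL2 := L_value (p := p) h1
  rw [← hL1, Complex.ofReal_re] at hL2
  rw [← hL2]
  have h4 : Real.sqrt p ≠ 0 := by
    rw [Real.sqrt_ne_zero']
    exact_mod_cast hp.pos
  field_simp

/-- The class number formula of `ℚ(√p)`, `p ≡ 1 (mod 4)`. -/
theorem cnf (h1 : p % 4 = 1) (K : Type) [Field K] [NumberField K]
    (h2 : finrank ℚ K = 2) (β : K) (hβ : β ^ 2 = (p : K)) (φ : K →+* ℝ) (ε : ℝ) (hε : IsFund K φ ε) :
    2 * classNumber K * Real.log ε =
      - ∑ j : ZMod p, ((quadraticChar (ZMod p) j : ℤ) : ℝ) * Real.log ‖1 - stdAddChar j‖ := by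
  obtain ⟨L, _, _, _⟩ := exists_cyc p
  exact cnf_aux L h1 K h2 β hβ φ ε hε

/-- the product of `1 - ζ^r` over the quadratic residues `r` is `√p ε^{-h}` (in absolute value),
and over the nonresidues it is `√p ε^h`. -/
theorem prod_res (h1 : p % 4 = 1) (K : Type) [Field K] [NumberField K]
    (h2 : finrank ℚ K = 2) (β : K) (hβ : β ^ 2 = (p : K)) (φ : K →+* ℝ) (ε : ℝ) (hε : IsFund K φ ε) :
    ∏ j ∈ univ.filter (fun j : ZMod p => quadraticChar (ZMod p) j = 1), ‖1 - stdAddChar j‖ =
        Real.sqrt p * (ε ^ (classNumber K))⁻¹ ∧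
    ∏ j ∈ univ.filter (fun j : ZMod p => quadraticChar (ZMod p) j = -1), ‖1 - stdAddChar j‖ =
        Real.sqrt p * ε ^ (classNumber K) := by
  have hp : p.Prime := Fact.out
  have hp2 : p ≠ 2 := by rintro rfl; omega
  have hp0 : (0 : ℝ) < p := by exact_mod_cast hp.pos
  have hc := cnf h1 K h2 β hβ φ ε hε
  obtain ⟨hε1, -⟩ := hε
  have hε0 : 0 < ε := by linarith
  have hpos : ∀ j : ZMod p, j ≠ 0 → 0 < ‖1 - stdAddChar j‖ := by
    intro j hj
    rw [norm_pos_iff, sub_ne_zero]
    intro h
    exact hj (((ZMod.isPrimitive_stdAddChar p).zmod_char_eq_one_iff p j).mp h.symm)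
  set R := univ.filter (fun j : ZMod p => quadraticChar (ZMod p) j = 1) with hR
  set N := univ.filter (fun j : ZMod p => quadraticChar (ZMod p) j = -1) with hN
  have hR0 : ∀ j ∈ R, 0 < ‖1 - stdAddChar j‖ := by
    intro j hj
    apply hpos
    rintro rfl
    rw [hR, Finset.mem_filter, MulChar.map_zero] at hj
    exact zero_ne_one hj.2
  have hN0 : ∀ j ∈ N, 0 < ‖1 - stdAddChar j‖ := by
    intro j hj
    apply hpos
    rintro rfl
    rw [hN, Finset.mem_filter, MulChar.map_zero] at hj
    have := hj.2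
    norm_num at this
  have hdisj : Disjoint R N := by
    rw [Finset.disjoint_left]
    intro j hj hj'
    rw [hR, Finset.mem_filter] at hj
    rw [hN, Finset.mem_filter] at hj'
    rw [hj.2] at hj'
    have := hj'.2
    norm_num at this
  have hun : univ.erase (0 : ZMod p) = R ∪ N := by
    ext j
    simp only [Finset.mem_erase, Finset.mem_univ, and_true, Finset.mem_union, hR, hN,
      Finset.mem_filter, true_and]
    constructor
    · exact fun h => quadraticChar_dichotomy h
    · rintro (h | h) rfl <;> rw [MulChar.map_zero] at h <;> norm_num at h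
  have hsum : ∑ j : ZMod p, ((quadraticChar (ZMod p) j : ℤ) : ℝ) * Real.log ‖1 - stdAddChar j‖ =
      Real.log (∏ j ∈ R, ‖1 - stdAddChar j‖) - Real.log (∏ j ∈ N, ‖1 - stdAddChar j‖) := by
    rw [← Finset.add_sum_erase univ _ (Finset.mem_univ (0 : ZMod p)), MulChar.map_zero]
    rw [hun, Finset.sum_union hdisj, Real.log_prod (fun j hj => (hR0 j hj).ne'),
      Real.log_prod (fun j hj => (hN0 j hj).ne')]
    have a1 : ∑ j ∈ R, ((quadraticChar (ZMod p) j : ℤ) : ℝ) * Real.log ‖1 - stdAddChar j‖ =
        ∑ j ∈ R, Real.log ‖1 - stdAddChar j‖ := by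
      apply Finset.sum_congr rfl
      intro j hj
      rw [hR, Finset.mem_filter] at hj
      rw [hj.2]; simp
    have a2 : ∑ j ∈ N, ((quadraticChar (ZMod p) j : ℤ) : ℝ) * Real.log ‖1 - stdAddChar j‖ =
        - ∑ j ∈ N, Real.log ‖1 - stdAddChar j‖ := by
      rw [← Finset.sum_neg_distrib]
      apply Finset.sum_congr rfl
      intro j hj
      rw [hN, Finset.mem_filter] at hj
      rw [hj.2]; simp
    rw [a1, a2]
    push_cast
    ring
  set A := ∏ j ∈ R, ‖1 - stdAddChar j‖ with hA
  set B := ∏ j ∈ N, ‖1 - stdAddChar j‖ with hB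
  have hA0 : 0 < A := Finset.prod_pos hR0
  have hB0 : 0 < B := Finset.prod_pos hN0
  have hAB : A * B = p := by
    rw [hA, hB, ← Finset.prod_union hdisj, ← hun, ← norm_prod]
    have h3 : ∏ k ∈ univ.erase (0 : ZMod p), (1 - stdAddChar (N := p) k) = (p : ℂ) := by
      have h4 : ∏ k ∈ univ.erase (0 : ZMod p), (1 - stdAddChar (N := p) k) =
          ∏ i ∈ Finset.range (p - 1), (1 - (stdAddChar (N := p) 1) ^ (i + 1)) := by
        symm
        apply Finset.prod_bij (fun (i : ℕ) _ => ((i + 1 : ℕ) : ZMod p))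
        · intro i hi
          rw [Finset.mem_range] at hi
          simp only [Finset.mem_erase, Finset.mem_univ, and_true]
          intro h
          rw [ZMod.natCast_eq_zero_iff] at h
          have := Nat.le_of_dvd (by omega) h
          omega
        · intro a ha b hb hab
          rw [Finset.mem_range] at ha hb
          have := congrArg ZMod.val hab
          rw [ZMod.val_natCast_of_lt (by omega), ZMod.val_natCast_of_lt (by omega)] at this
          omega
        · intro b hb
          simp only [Finset.mem_erase, Finset.mem_univ, and_true] at hb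
          have h5 : b.val ≠ 0 := by rwa [Ne, ZMod.val_eq_zero]
          have h6 := ZMod.val_lt b
          refine ⟨b.val - 1, ?_, ?_⟩
          · rw [Finset.mem_range]; omega
          · rw [show b.val - 1 + 1 = b.val by omega, ZMod.natCast_zmod_val]
        · intro i _
          rw [← AddChar.map_nsmul_eq_pow, nsmul_eq_mul, mul_one]
      rw [h4]
      have hprim : IsPrimitiveRoot (stdAddChar (N := p) 1) p := by
        rw [IsPrimitiveRoot.iff_def]
        constructor
        · rw [← AddChar.map_nsmul_eq_pow, nsmul_eq_mul, ZMod.natCast_self, zero_mul,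
            AddChar.map_zero_eq_one]
        · intro l hl
          rw [← AddChar.map_nsmul_eq_pow, nsmul_eq_mul, mul_one] at hl
          have := ((ZMod.isPrimitive_stdAddChar p).zmod_char_eq_one_iff p _).mp hl
          rwa [ZMod.natCast_eq_zero_iff] at this
      obtain ⟨s, hs⟩ : ∃ s, p = s + 1 := ⟨p - 1, by have := hp.pos; omega⟩
      have h5 := IsPrimitiveRoot.prod_one_sub_pow_eq_order (R := ℂ) (n := s) (μ := stdAddChar (N := p) 1)
        (by rw [← hs]; exact hprim)
      rw [show p - 1 = s by omega, h5, hs]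
      push_cast
      ring
    rw [h3, Complex.norm_natCast]
  rw [hsum] at hc
  have hlog : Real.log B = 2 * classNumber K * Real.log ε + Real.log A := by linarith
  have hBA : B = (ε ^ (classNumber K)) ^ 2 * A := by
    have h3 : Real.log B = Real.log ((ε ^ (classNumber K)) ^ 2 * A) := by
      rw [hlog, Real.log_mul (by positivity) (by positivity), Real.log_pow, Real.log_pow]
      push_cast
      ring
    exact Real.log_injOn_pos (Set.mem_Ioi.2 hB0) (Set.mem_Ioi.2 (by positivity)) h3
  set E := ε ^ (classNumber K) with hE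
  have hE0 : 0 < E := by positivity
  have hA2 : (A * E) ^ 2 = p := by rw [← hAB, hBA]; ring
  have hAE : A * E = Real.sqrt p := by
    rw [← hA2, Real.sqrt_sq (by positivity)]
  constructor
  · rw [← hAE]; field_simp
  · rw [← hAE, hBA]; ring

end

end Pool.Agent.R945.RQ
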